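import Pool.Agent.W869.CC.Final
set_option autoImplicit false

/-!
# A nonreflecting stationary subset of `κ⁺` is forced without adding subsets of `κ`
-/

namespace Pool.Agent.TH577.CO

open Cardinal Pool.Agent.W869.CC Pool.Agent.Helper669.Forcing

/-- Every subset of the ground model set `κ` in the extension belongs to the ground model. -/
def NoNewN (P : Type) [Preorder P] (κ : Cardinal.{0}) : Set P :=
  fall fun x : κ.ord.ToType → Set P => fex fun r : κ.ord.ToType → Prop =>
    fall fun ξ => fiff (meets (fground (r ξ))) (meets (x ξ))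

/-- In the extension: there are no new subsets of `κ`, the ground model `κ⁺` is not an image of
`κ`, and it has a nonreflecting stationary set of points of countable cofinality. -/
def HypN (P : Type) [Preorder P] (κ : Cardinal.{0}) : Set P :=
  fand (NoNewN P κ)
    (fand (NoOnto P κ.ord.ToType (Order.succ κ).ord.ToType)
      (fex fun S : (Order.succ κ).ord.ToType → Set P => NonRefN S))

theorem forcedC {κ : Cardinal.{0}} (h0 : ℵ₀ ≤ κ) : ∃ (P : Type) (_ : Preorder P),
    Nonempty P ∧ ∀ p : P, p ∈ HypN P κ := by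
  have hreg' : (Order.succ κ).IsRegular := Cardinal.isRegular_succ h0
  let Z := (Order.succ κ).ord.ToType
  have hno : ∀ z : Z, ∃ z', z < z' := exists_gt hreg'
  have hbd : ∀ (J : Type) (f : J → Z), #J ≤ κ → ∃ b, ∀ j, f j ≤ b := by
    intro J f hJ
    obtain ⟨b, hb⟩ := exists_bound hreg' (Set.range f)
      (Cardinal.mk_range_le.trans_lt (hJ.trans_lt (Order.lt_succ κ)))
    exact ⟨b, fun n => (hb _ ⟨n, rfl⟩).le⟩
  have hN : #ℕ ≤ κ := by rw [Cardinal.mk_nat]; exact h0
  have hK : #κ.ord.ToType ≤ κ := (mk_ord_toType κ).le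
  have hZ : Nonempty Z := by
    rw [← Cardinal.mk_ne_zero_iff, mk_ord_toType]
    exact (Cardinal.aleph0_pos.trans (h0.trans_lt (Order.lt_succ κ))).ne'
  refine ⟨Cond Z, inferInstance, ⟨Classical.choice hZ, ∅, fun α hα => absurd hα (by simp),
    fun α hα => absurd hα (by simp), fun β _ hlim _ => ⟨fun _ => True, ⟨fun δ hδ => ?_,
      fun _ _ _ _ => trivial⟩, fun γ _ h => absurd h.2 (by simp)⟩⟩, fun p => ⟨?_, ?_, ?_⟩⟩
  · obtain ⟨γ, h1, h2⟩ := hlim.2 δ hδ
    exact ⟨γ, h1, h2, trivial⟩
  · intro x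
    rw [mem_fex]
    intro q _
    obtain ⟨r, hr, x0, hx0⟩ := decide_set hno hbd hK x q
    exact ⟨r, hr, x0, fun ξ => fiff_of (hx0 ξ).1 (hx0 ξ).2⟩
  · exact forces_noOnto hno hbd hK p
  · exact mem_fex_of_mem Sn (down_NonRefN _)
      (forces_nonRef hno (fun f => hbd ℕ f hN) p)

end Pool.Agent.TH577.CO
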