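import Pool.Agent.TH577.CO.Main
import Pool.Agent.TH577.CO.Forc
set_option autoImplicit false

/-!
# The consistent negative answer
-/

namespace Pool.Agent.TH577.CO

open Cardinal Pool.Agent.W869.CC

/-- There is a compact Hausdorff space which is not Corson compact, although the closures of all its
subsets of size at most `κ` are Eberlein compact. -/
def Counterexample (κ : Cardinal.{0}) : Prop :=
  ∃ (X : Type) (_ : TopologicalSpace X), CompactSpace X ∧ T2Space X ∧
    (∀ A : Set X, #A ≤ κ → EberleinLike (closure A)) ∧ ¬ CorsonLike X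

theorem consistently {κ : Cardinal.{0}} (hκ : ℵ₀ ≤ κ) :
    (∃ (P : Type) (_ : Preorder P), Nonempty P ∧ ∀ p : P, p ∈ HypN P κ) ∧
    ((∃ S : (Order.succ κ).ord.ToType → Prop, NonRef S) ↔
      ∃ S : Set (Order.succ κ).ord.ToType, Nonreflecting S) ∧
    ((∃ S : (Order.succ κ).ord.ToType → Prop, NonRef S) → Counterexample κ) := by
  have hno := exists_gt (Cardinal.isRegular_succ hκ)
  refine ⟨forcedC hκ, ⟨?_, ?_⟩, ?_⟩
  · rintro ⟨S, hS⟩
    exact ⟨{x | S x}, (nonRef_iff hno {x | S x}).1 hS⟩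
  · rintro ⟨S, hS⟩
    exact ⟨fun x => x ∈ S, (nonRef_iff hno S).2 hS⟩
  · rintro ⟨S, hS⟩
    obtain ⟨X, h1, h2, h3, h4, h5⟩ := exists_space hκ hS
    exact ⟨X, h1, h2, h3, h4, h5⟩

end Pool.Agent.TH577.CO
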