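import Pool.Agent.W869.CC.FDefs
set_option autoImplicit false

/-!
# Ladder systems on nonreflecting sets are essentially disjoint below every point
-/

namespace Pool.Agent.TH577.CO

open Pool.Agent.W869.CC

section

variable {Z : Type} [LinearOrder Z] [WellFoundedLT Z]

/-- a ladder system on `S`: increasing sequences converging to the points of `S` -/
structure IsLad (S : Z → Prop) (lad : Z → ℕ → Z) : Prop where
  lt : ∀ δ, S δ → ∀ n, lad δ n < δ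
  cof : ∀ δ, S δ → ∀ x < δ, ∃ n, x < lad δ n
  mono : ∀ δ, S δ → StrictMono (lad δ)

/-- a set of points below `β`, which cuts the part of `S` below `β` into small pieces -/
def Cut (S : Z → Prop) (lad : Z → ℕ → Z) (β : Z) (C : Z → Prop) : Prop :=
  (∀ γ, C γ → γ < β) ∧ (∀ δ < β, S δ → ∃ γ, C γ ∧ δ ≤ γ) ∧
    (∀ δ < β, S δ → (∃ γ, C γ ∧ γ < δ) → ∃ a, C a ∧ a < δ ∧ ∀ γ, C γ → γ < δ → γ ≤ a) ∧
    (S β → ∀ n, C (lad β n))

theorem exists_least (A : Z → Prop) (h : ∃ x, A x) : ∃ x, A x ∧ ∀ y, A y → x ≤ y := by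
  obtain ⟨x, hx⟩ := h
  exact ⟨wellFounded_lt.min {y | A y} ⟨x, hx⟩, wellFounded_lt.min_mem {y | A y} ⟨x, hx⟩,
    fun y hy => not_lt.1 (wellFounded_lt.not_lt_min {y | A y} hy)⟩

/-- below every point one can remove bounded parts of the ladders such that the rests are
disjoint -/
theorem free {S : Z → Prop} {lad : Z → ℕ → Z} (hL : IsLad S lad)
    (hC : ∀ β, ∃ C, Cut S lad β C) (β α : Z) : ∃ g : Z → Z,
      (∀ δ, S δ → α < δ → δ ≤ β → α ≤ g δ ∧ g δ < δ) ∧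
      ∀ δ δ' m n, S δ → S δ' → α < δ → δ < δ' → δ' ≤ β → lad δ m = lad δ' n →
        g δ < lad δ m → g δ' < lad δ' n → False := by
  classical
  revert α
  refine wellFounded_lt.induction (C := fun β => ∀ α, ∃ g : Z → Z,
      (∀ δ, S δ → α < δ → δ ≤ β → α ≤ g δ ∧ g δ < δ) ∧
      ∀ δ δ' m n, S δ → S δ' → α < δ → δ < δ' → δ' ≤ β → lad δ m = lad δ' n →
        g δ < lad δ m → g δ' < lad δ' n → False) β ?_
  intro β ih α
  obtain ⟨C, hC1, hC2, hC3, hC4⟩ := hC β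
  have : Nonempty Z := ⟨β⟩
  choose! G hG1 hG2 using ih
  have hb : ∀ δ < β, S δ → ∃ b, (C b ∧ δ ≤ b) ∧ ∀ γ, C γ ∧ δ ≤ γ → b ≤ γ := fun δ hδ hS =>
    exists_least (fun γ => C γ ∧ δ ≤ γ) (hC2 δ hδ hS)
  choose! b hb1 hb2 using hb
  have ha : ∀ δ : Z, α < δ → ∃ a, (α ≤ a ∧ ∀ γ, C γ → γ < δ → γ ≤ a) ∧
      ∀ x, (α ≤ x ∧ ∀ γ, C γ → γ < δ → γ ≤ x) → a ≤ x := fun δ hδ =>
    exists_least (fun x => α ≤ x ∧ ∀ γ, C γ → γ < δ → γ ≤ x) ⟨δ, hδ.le, fun γ _ h => h.le⟩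
  choose! a ha1 ha2 using ha
  have halt : ∀ δ < β, S δ → α < δ → a δ < δ := by
    intro δ hδ hS hα
    by_cases h : ∃ γ, C γ ∧ γ < δ
    · obtain ⟨c, hc1, hc2, hc3⟩ := hC3 δ hδ hS h
      refine (ha2 δ hα (max α c) ⟨le_max_left _ _, fun γ h1 h2 => ?_⟩).trans_lt (max_lt hα hc2)
      exact (hc3 γ h1 h2).trans (le_max_right _ _)
    · push Not at h
      exact (ha2 δ hα α ⟨le_rfl, fun γ h1 h2 => absurd h2 (not_lt.2 (h γ h1))⟩).trans_lt hα
  refine ⟨fun δ => if δ = β then α else G (b δ) (a δ) δ, ?_, ?_⟩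
  · intro δ hS hα hβ
    by_cases h : δ = β
    · simp only [if_pos h]
      exact ⟨le_rfl, hα⟩
    · simp only [if_neg h]
      have hδ : δ < β := lt_of_le_of_ne hβ h
      obtain ⟨h1, h2⟩ := hb1 δ hδ hS
      obtain ⟨h3, h4⟩ := hG1 (b δ) (hC1 _ h1) (a δ) δ hS (halt δ hδ hS hα) h2
      exact ⟨(ha1 δ hα).1.trans h3, h4⟩
  · intro δ δ' m n hS hS' hα hlt hβ he h1 h2
    have hδ : δ < β := hlt.trans_le hβ
    beta_reduce at h1 h2
    rw [if_neg hδ.ne] at h1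
    obtain ⟨hb3, hb4⟩ := hb1 δ hδ hS
    obtain ⟨h3, h4⟩ := hG1 (b δ) (hC1 _ hb3) (a δ) δ hS (halt δ hδ hS hα) hb4
    have hξ : lad δ m < δ := hL.lt δ hS m
    by_cases h : δ' = β
    · subst h
      have h5 := hC4 hS' n
      rw [← he] at h5
      exact absurd ((ha1 δ hα).2 _ h5 hξ) (not_le.2 (h3.trans_lt h1))
    · rw [if_neg h] at h2
      have hδ' : δ' < β := lt_of_le_of_ne hβ h
      obtain ⟨hb5, hb6⟩ := hb1 δ' hδ' hS'
      have hα' : α < δ' := hα.trans hlt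
      obtain ⟨h5, h6⟩ := hG1 (b δ') (hC1 _ hb5) (a δ') δ' hS' (halt δ' hδ' hS' hα') hb6
      rcases lt_or_ge (b δ) δ' with h7 | h7
      · have h8 := (ha1 δ' hα').2 _ hb3 h7
        rw [← he] at h2
        exact absurd (hb4.trans (h8.trans h5)) (not_le.2 (h2.trans hξ))
      · have h8 : ∀ γ, C γ → (γ < δ ↔ γ < δ') := by
          intro γ hγ
          refine ⟨fun h => h.trans hlt, fun h => ?_⟩
          by_contra hcon
          exact absurd (hb2 δ hδ hS γ ⟨hγ, not_lt.1 hcon⟩) (not_le.2 (h.trans_le h7))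
        have h9 : a δ = a δ' := by
          refine le_antisymm ?_ ?_
          · exact ha2 δ hα _ ⟨(ha1 δ' hα').1, fun γ h h' => (ha1 δ' hα').2 γ h ((h8 γ h).1 h')⟩
          · exact ha2 δ' hα' _ ⟨(ha1 δ hα).1, fun γ h h' => (ha1 δ hα).2 γ h ((h8 γ h).2 h')⟩
        have h10 : b δ = b δ' := le_antisymm (hb2 δ hδ hS _ ⟨hb5, hlt.le.trans hb6⟩)
          (hb2 δ' hδ' hS' _ ⟨hb3, h7⟩)
        rw [← h9, ← h10] at h2
        exact hG2 (b δ) (hC1 _ hb3) (a δ) δ δ' m n hS hS' (halt δ hδ hS hα) hlt h7 he h1 h2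

/-- points of countable cofinality have ladders -/
theorem exists_lad {S : Z → Prop} (h : ∀ α, S α → CofOm α) : ∃ lad : Z → ℕ → Z, IsLad S lad := by
  classical
  have key : ∀ α, S α → ∃ s : ℕ → Z, (∀ n, s n < α) ∧ (∀ x < α, ∃ n, x < s n) ∧ StrictMono s := by
    intro α hα
    obtain ⟨f, hf1, hf2⟩ := h α hα
    have hstep : ∀ (n : ℕ) (x : {x : Z // x < α}), ∃ y : {y : Z // y < α}, x.1 < y.1 ∧ f n < y.1 := by
      intro n x
      obtain ⟨k, hk⟩ := hf2 (max x.1 (f n)) (max_lt x.2 (hf1 n))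
      exact ⟨⟨f k, hf1 k⟩, (le_max_left _ _).trans_lt hk, (le_max_right _ _).trans_lt hk⟩
    choose nxt hn1 hn2 using hstep
    let u : ℕ → {x : Z // x < α} := fun n => Nat.rec ⟨f 0, hf1 0⟩ (fun k x => nxt k x) n
    have hu : ∀ n, u (n + 1) = nxt n (u n) := fun n => rfl
    refine ⟨fun n => (u n).1, fun n => (u n).2, fun x hx => ?_, strictMono_nat_of_lt_succ fun n => ?_⟩
    · obtain ⟨n, hn⟩ := hf2 x hx
      refine ⟨n + 1, ?_⟩
      show x < (u (n + 1)).1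
      rw [hu]
      exact hn.trans (hn2 n _)
    · show (u n).1 < (u (n + 1)).1
      rw [hu]
      exact hn1 n _
  choose! s hs1 hs2 hs3 using key
  exact ⟨s, hs1, hs2, hs3⟩

/-- an increasing sequence converging to `β` cuts -/
theorem cut_of_seq {S : Z → Prop} {lad : Z → ℕ → Z} {β : Z} {s : ℕ → Z} (h1 : ∀ n, s n < β)
    (h2 : ∀ x < β, ∃ n, x < s n) (h3 : StrictMono s) (h4 : S β → ∀ n, ∃ k, lad β n = s k) :
    Cut S lad β fun γ => ∃ n, γ = s n := by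
  classical
  refine ⟨?_, ?_, ?_, ?_⟩
  · rintro γ ⟨n, rfl⟩
    exact h1 n
  · intro δ hδ _
    obtain ⟨n, hn⟩ := h2 δ hδ
    exact ⟨s n, ⟨n, rfl⟩, hn.le⟩
  · rintro δ hδ _ ⟨γ, ⟨m, rfl⟩, hm⟩
    obtain ⟨n, hn⟩ := h2 δ hδ
    have hbd : ∀ k, s k < δ → k ≤ n := fun k hk => by
      by_contra hcon
      exact absurd (hn.trans (h3 (not_le.1 hcon))) (not_lt.2 hk.le)
    have hex : ∃ k, s k < δ ∧ ∀ j, s j < δ → j ≤ k := by
      let A : Finset ℕ := (Finset.range (n + 1)).filter fun k => s k < δ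
      have hA : A.Nonempty := ⟨m, Finset.mem_filter.2
        ⟨Finset.mem_range.2 (Nat.lt_succ_of_le (hbd m hm)), hm⟩⟩
      refine ⟨A.max' hA, (Finset.mem_filter.1 (A.max'_mem hA)).2, fun j hj => ?_⟩
      exact A.le_max' j (Finset.mem_filter.2
        ⟨Finset.mem_range.2 (Nat.lt_succ_of_le (hbd j hj)), hj⟩)
    obtain ⟨k, hk1, hk2⟩ := hex
    refine ⟨s k, ⟨k, rfl⟩, hk1, ?_⟩
    rintro γ ⟨j, rfl⟩ hj
    exact h3.monotone (hk2 j hj)
  · intro hS n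
    exact h4 hS n

/-- for a nonreflecting set there are cuts everywhere -/
theorem exists_cut {S : Z → Prop} {lad : Z → ℕ → Z} (hL : IsLad S lad)
    (hS1 : ∀ α, S α → CofOm α)
    (hS2 : ∀ β, IsLim β → ¬ CofOm β → ∃ C : Z → Prop, ClubIn C β ∧ ∀ γ < β, ¬ (C γ ∧ S γ))
    (β : Z) : ∃ C, Cut S lad β C := by
  classical
  by_cases hβ : S β
  · exact ⟨_, cut_of_seq (hL.lt β hβ) (hL.cof β hβ) (hL.mono β hβ) fun _ n => ⟨n, rfl⟩⟩
  by_cases hlim : IsLim β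
  swap
  · -- `β` is the least point or a successor
    by_cases h0 : ∃ δ, δ < β
    · have h1 : ∃ δ < β, ∀ γ, γ < β → γ ≤ δ := by
        by_contra hcon
        push Not at hcon
        refine hlim ⟨h0, fun δ hδ => ?_⟩
        obtain ⟨γ, h2, h3⟩ := hcon δ hδ
        exact ⟨γ, h3, h2⟩
      obtain ⟨δ, hδ, hmax⟩ := h1
      refine ⟨fun γ => γ = δ, ?_, ?_, ?_, fun h => absurd h hβ⟩
      · rintro γ rfl
        exact hδ
      · intro γ hγ _
        exact ⟨δ, rfl, hmax γ hγ⟩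
      · rintro x hx _ ⟨γ, rfl, hγ⟩
        exact ⟨γ, rfl, hγ, fun _ h _ => h.le⟩
    · push Not at h0
      refine ⟨fun _ => False, fun _ h => h.elim, fun δ hδ => absurd hδ (not_lt.2 (h0 δ)),
        fun δ hδ => absurd hδ (not_lt.2 (h0 δ)), fun h => absurd h hβ⟩
  by_cases hcof : CofOm β
  · obtain ⟨lad', hl⟩ := exists_lad (S := fun γ => γ = β) (by rintro _ rfl; exact hcof)
    exact ⟨_, cut_of_seq (hl.lt β rfl) (hl.cof β rfl) (hl.mono β rfl) fun h => absurd h hβ⟩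
  · obtain ⟨C, ⟨hC1, hC2⟩, hC3⟩ := hS2 β hlim hcof
    refine ⟨fun γ => C γ ∧ γ < β, fun γ h => h.2, ?_, ?_, fun h => absurd h hβ⟩
    · intro δ hδ _
      obtain ⟨γ, h1, h2, h3⟩ := hC1 δ hδ
      exact ⟨γ, ⟨h3, h2⟩, h1.le⟩
    · rintro δ hδ hS ⟨γ, ⟨hγ1, -⟩, hγ3⟩
      -- the supremum of the points of `C` below `δ`
      obtain ⟨a, ha1, ha2⟩ := exists_least (fun x => ∀ γ, C γ → γ < δ → γ ≤ x)
        ⟨δ, fun γ _ h => h.le⟩
      have haδ : a ≤ δ := ha2 δ fun γ _ h => h.le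
      have haC : C a ∨ ∃ c, C c ∧ c < δ ∧ ∀ γ, C γ → γ < δ → γ ≤ c := by
        by_cases hm : ∃ c, C c ∧ c < δ ∧ ∀ γ, C γ → γ < δ → γ ≤ c
        · exact Or.inr hm
        · left
          push Not at hm
          refine hC2 a (haδ.trans_lt hδ) ?_ ?_
          · obtain ⟨γ', h1, h2, h3⟩ := hm γ hγ1 hγ3
            exact ⟨γ, h3.trans_le (ha1 γ' h1 h2)⟩
          · intro x hx
            have h1 : ¬ ∀ γ, C γ → γ < δ → γ ≤ x := fun h => absurd (ha2 x h) (not_le.2 hx)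
            push Not at h1
            obtain ⟨c, hc1, hc2, hc3⟩ := h1
            obtain ⟨c', h1, h2, h3⟩ := hm c hc1 hc2
            exact ⟨c, hc3, h3.trans_le (ha1 c' h1 h2), hc1⟩
      rcases haC with haC | ⟨c, h1, h2, h3⟩
      · have hne : a ≠ δ := by
          rintro rfl
          exact hC3 a hδ ⟨haC, hS⟩
        have hlt : a < δ := lt_of_le_of_ne haδ hne
        exact ⟨a, ⟨haC, hlt.trans hδ⟩, hlt, fun γ h => ha1 γ h.1⟩
      · exact ⟨c, ⟨h1, h2.trans hδ⟩, h2, fun γ h => h3 γ h.1⟩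

end

end Pool.Agent.TH577.CO
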