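import Pool.Agent.TH577.CO.Space
import Pool.Agent.W869.CC.Indep
set_option autoImplicit false

/-!
# The compactified ladder space is not Corson compact, closures of small sets are Eberlein compact
-/

namespace Pool.Agent.TH577.CO

open Cardinal Set Filter Topology Pool.Agent.W869.CC

/-- `K` is a Corson compact space if it is compact: it embeds into a product of lines such that all
points have countable supports. -/
def CorsonLike (K : Type) [TopologicalSpace K] : Prop :=
  ∃ (Γ : Type) (f : K → (Γ → ℝ)), IsEmbedding f ∧ ∀ x, (Function.support (f x)).Countable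

/-- `K` is an Eberlein compact space if it is compact: it maps injectively and continuously into
`c₀(Γ)` with the topology of pointwise convergence, and the image is bounded. -/
def EberleinLike (K : Type) [TopologicalSpace K] : Prop :=
  ∃ (Γ : Type) (f : K → (Γ → ℝ)), Continuous f ∧ Function.Injective f ∧
    (∀ x, Tendsto (f x) cofinite (𝓝 0)) ∧ ∃ M : ℝ, ∀ x γ, |f x γ| ≤ M

theorem EberleinLike.corson {K : Type} [TopologicalSpace K] [CompactSpace K]
    (h : EberleinLike K) : CorsonLike K := by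
  obtain ⟨Γ, f, h1, h2, h3, -⟩ := h
  refine ⟨Γ, f, (h1.isClosedEmbedding h2).isEmbedding, fun x => ?_⟩
  have h4 : Function.support (f x) ⊆ ⋃ n : ℕ, {γ | 1 / ((n : ℝ) + 1) ≤ |f x γ|} := by
    intro γ hγ
    obtain ⟨n, hn⟩ := exists_nat_one_div_lt (abs_pos.2 hγ)
    exact mem_iUnion.2 ⟨n, hn.le⟩
  refine (countable_iUnion fun n => ?_).mono h4
  have h5 : ∀ᶠ γ in cofinite, |f x γ| < 1 / ((n : ℝ) + 1) := by
    have h6 := (h3 x).abs
    rw [abs_zero] at h6
    exact h6.eventually_lt_const (by positivity)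
  have h7 : {γ | ¬ |f x γ| < 1 / ((n : ℝ) + 1)}.Finite := h5
  exact (h7.subset fun γ hγ => not_lt.2 hγ).countable

section

variable {Z : Type} [LinearOrder Z] [WellFoundedLT Z] {S : Z → Prop} {lad : Z → ℕ → Z}

/-- closure points of a function form a club -/
theorem club_of {κ : Cardinal.{0}} (hκ : ℵ₀ ≤ κ) (hno : ∀ z : Z, ∃ z', z < z')
    (hbd : ∀ (J : Type) (f : J → Z), #J ≤ κ → ∃ b, ∀ j, f j ≤ b) (hI : ∀ z : Z, #(Iio z) ≤ κ)
    (b : Z → Z) : Club fun α => ∀ γ < α, b γ < α := by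
  constructor
  · intro δ
    have hstep : ∀ z : Z, ∃ z', z < z' ∧ ∀ γ < z, b γ < z' := by
      intro z
      obtain ⟨u, hu⟩ := hbd (Iio z) (fun γ => b γ.1) (hI z)
      obtain ⟨v, hv⟩ := hno (max u z)
      exact ⟨v, (le_max_right _ _).trans_lt hv, fun γ hγ =>
        (hu ⟨γ, hγ⟩).trans_lt ((le_max_left _ _).trans_lt hv)⟩
    choose nx h1 h2 using hstep
    let u : ℕ → Z := fun n => Nat.rec (nx δ) (fun _ z => nx z) n
    have hu : ∀ n, u (n + 1) = nx (u n) := fun _ => rfl
    obtain ⟨v, hv⟩ := hbd ℕ u (by rw [Cardinal.mk_nat]; exact hκ)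
    obtain ⟨α, hα1, hα2⟩ := exists_least (fun x => ∀ n, u n ≤ x) ⟨v, hv⟩
    refine ⟨α, (h1 δ).trans_le (hα1 0), fun γ hγ => ?_⟩
    have h3 : ¬ ∀ n, u n ≤ γ := fun h => absurd (hα2 γ h) (not_le.2 hγ)
    push Not at h3
    obtain ⟨n, hn⟩ := h3
    have h4 : b γ < u (n + 1) := h2 (u n) γ hn
    exact h4.trans_le (hα1 (n + 1))
  · intro α _ h γ hγ
    obtain ⟨c, h1, h2, h3⟩ := h γ hγ
    exact (h3 γ h1).trans h2

/-- the compactified ladder space of a stationary set is not Corson compact -/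
theorem not_corson {κ : Cardinal.{0}} (hκ : ℵ₀ ≤ κ) (hno : ∀ z : Z, ∃ z', z < z')
    (hbd : ∀ (J : Type) (f : J → Z), #J ≤ κ → ∃ b, ∀ j, f j ≤ b) (hI : ∀ z : Z, #(Iio z) ≤ κ)
    (hL : IsLad S lad) (hst : ∀ C : Z → Prop, Club C → ∃ α, C α ∧ S α) :
    ¬ CorsonLike (X S lad) := by
  classical
  rintro ⟨Γ, f, hf, hsupp⟩
  have := t2 hL
  have h1 : ∀ δ : {δ // S δ}, ∃ t, f ((lp δ : Psi S lad) : X S lad) t ≠ f OnePoint.infty t := by
    intro δ
    by_contra hcon
    push Not at hcon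
    have h2 := hf.injective (funext hcon)
    exact OnePoint.coe_ne_infty _ h2
  choose t ht using h1
  have hcont : ∀ s : Γ, Continuous fun x => f x s := fun s => (continuous_apply s).comp hf.continuous
  -- the ladders
  have h2 : ∀ δ : {δ // S δ}, ∃ n, f ((pt (lad δ n) : Psi S lad) : X S lad) (t δ) ≠
      f OnePoint.infty (t δ) := by
    intro δ
    have h3 : Tendsto (fun n => f ((pt (lad δ n) : Psi S lad) : X S lad) (t δ)) atTop
        (𝓝 (f ((lp δ : Psi S lad) : X S lad) (t δ))) :=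
      ((hcont (t δ)).tendsto _).comp
        ((OnePoint.continuous_coe.tendsto (lp δ : Psi S lad)).comp (tendsto_lad δ))
    obtain ⟨n, hn⟩ := (h3.eventually_ne (ht δ)).exists
    exact ⟨n, hn⟩
  choose n hn using h2
  -- the fibres of `t` are countable
  have hfib : ∀ s : Γ, {δ : {δ // S δ} | t δ = s}.Countable := by
    intro s
    have h3 : {δ : {δ // S δ} | t δ = s} ⊆ ⋃ m : ℕ, {δ | 1 / ((m : ℝ) + 1) ≤
        |f ((lp δ : Psi S lad) : X S lad) s - f OnePoint.infty s|} := by
      rintro δ rfl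
      obtain ⟨m, hm⟩ := exists_nat_one_div_lt (abs_pos.2 (sub_ne_zero.2 (ht δ)))
      exact mem_iUnion.2 ⟨m, hm.le⟩
    refine (countable_iUnion fun m => ?_).mono h3
    have hc : Continuous fun x : X S lad => |f x s - f OnePoint.infty s| :=
      ((hcont s).sub continuous_const).abs
    have h4 : IsClosed {x : X S lad | 1 / ((m : ℝ) + 1) ≤ |f x s - f OnePoint.infty s|} :=
      isClosed_le continuous_const hc
    have h5 : (OnePoint.infty : X S lad) ∉ {x : X S lad | 1 / ((m : ℝ) + 1) ≤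
        |f x s - f OnePoint.infty s|} := by
      intro h
      have h6 : 1 / ((m : ℝ) + 1) ≤ |f OnePoint.infty s - f OnePoint.infty s| := h
      rw [sub_self, abs_zero] at h6
      have h7 : 0 < 1 / ((m : ℝ) + 1) := by positivity
      linarith
    have h6 := (OnePoint.isClosed_iff_of_notMem h5).1 h4
    exact (finite_lp h6.2).countable
  -- the map `δ ↦ lad δ (n δ)` has countable fibres
  have hE : ∀ γ : Z, {δ : {δ // S δ} | lad δ (n δ) = γ}.Countable := by
    intro γ
    have h3 : (Function.support (f ((pt γ : Psi S lad) : X S lad)) ∪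
        Function.support (f OnePoint.infty)).Countable := (hsupp _).union (hsupp _)
    refine (h3.biUnion fun s _ => hfib s).mono ?_
    intro δ hδ
    have hδ' : lad δ (n δ) = γ := hδ
    have h4 := hn δ
    rw [hδ'] at h4
    refine mem_iUnion₂.2 ⟨t δ, ?_, rfl⟩
    by_contra hcon
    rw [mem_union, not_or, Function.notMem_support, Function.notMem_support] at hcon
    exact h4 (hcon.1.trans hcon.2.symm)
  have hB : ∀ γ : Z, ∃ b, ∀ δ : {δ // S δ}, lad δ (n δ) = γ → δ.1 ≤ b := by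
    intro γ
    obtain ⟨b, hb⟩ := hbd {δ : {δ // S δ} // lad δ (n δ) = γ} (fun δ => δ.1.1)
      ((Cardinal.mk_le_aleph0_iff.2 (hE γ).to_subtype).trans hκ)
    exact ⟨b, fun δ hδ => hb ⟨δ, hδ⟩⟩
  choose b hb using hB
  obtain ⟨α, hα1, hα2⟩ := hst _ (club_of hκ hno hbd hI b)
  have h3 := hα1 _ (hL.lt α hα2 (n ⟨α, hα2⟩))
  exact absurd (hb _ ⟨α, hα2⟩ rfl) (not_le.2 h3)

/-- the part of the compactification up to `β` -/
def Xb (S : Z → Prop) (lad : Z → ℕ → Z) (β : Z) : Set (X S lad) :=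
  {x | (∀ γ, x = ((pt γ : Psi S lad) : X S lad) → γ ≤ β) ∧
    ∀ δ, x = ((lp δ : Psi S lad) : X S lad) → δ.1 ≤ β}

theorem isClosed_Xb (hL : IsLad S lad) (β : Z) : IsClosed (Xb S lad β) := by
  classical
  have h1 : (Xb S lad β)ᶜ = (fun p : Psi S lad => (p : X S lad)) ''
      {p | (∃ γ, p = pt γ ∧ β < γ) ∨ ∃ δ, p = lp δ ∧ β < δ.1} := by
    ext x
    constructor
    · intro hx
      have hx' : ¬ ((∀ γ, x = ((pt γ : Psi S lad) : X S lad) → γ ≤ β) ∧
        ∀ δ, x = ((lp δ : Psi S lad) : X S lad) → δ.1 ≤ β) := hx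
      rw [not_and_or] at hx'
      rcases hx' with h | h
      · push Not at h
        obtain ⟨γ, h1, h2⟩ := h
        exact ⟨pt γ, Or.inl ⟨γ, rfl, h2⟩, h1.symm⟩
      · push Not at h
        obtain ⟨δ, h1, h2⟩ := h
        exact ⟨lp δ, Or.inr ⟨δ, rfl, h2⟩, h1.symm⟩
    · rintro ⟨p, (⟨γ, rfl, h⟩ | ⟨δ, rfl, h⟩), rfl⟩ hx
      · exact absurd (hx.1 γ rfl) (not_le.2 h)
      · exact absurd (hx.2 δ rfl) (not_le.2 h)
  rw [← isOpen_compl_iff, h1, OnePoint.isOpen_image_coe, isOpen_iff']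
  rintro δ (⟨γ, h2, -⟩ | ⟨δ', h2, h3⟩)
  · exact absurd h2.symm (pt_ne_lp _ _)
  · rw [← lp_inj h2] at h3
    refine (finite_lad_le hL δ h3).subset fun n hn h' => ?_
    exact hn (Or.inl ⟨_, rfl, h'⟩)

/-- closures of bounded sets are Eberlein compact -/
theorem eberlein_closure (hL : IsLad S lad) (hC : ∀ β, ∃ C, Cut S lad β C) (β : Z)
    (A : Set (X S lad)) (hA : A ⊆ Xb S lad β) : EberleinLike (closure A) := by
  classical
  have hA' : closure A ⊆ Xb S lad β := closure_minimal hA (isClosed_Xb hL β)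
  obtain ⟨α, -, hα⟩ := exists_least (fun _ : Z => True) ⟨β, trivial⟩
  have hSα : ∀ δ, S δ → α < δ := fun δ h => (hα (lad δ 0) trivial).trans_lt (hL.lt δ h 0)
  obtain ⟨g, hg1, hg2⟩ := free hL hC β α
  let V : Z ⊕ Z → Set (Psi S lad) := fun i =>
    Sum.elim (fun γ => {pt γ}) (fun δ => if h : S δ ∧ δ ≤ β then W ⟨δ, h.1⟩ (g δ) else ∅) i
  have hV1 : ∀ γ, V (Sum.inl γ) = {pt γ} := fun _ => rfl
  have hV2 : ∀ δ (h : S δ ∧ δ ≤ β), V (Sum.inr δ) = W ⟨δ, h.1⟩ (g δ) := fun δ h => dif_pos h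
  have hV3 : ∀ δ (_ : ¬ (S δ ∧ δ ≤ β)), V (Sum.inr δ) = ∅ := fun δ h => dif_neg h
  have hV : ∀ i, IsOpen (V i) ∧ IsCompact (V i) := by
    rintro (γ | δ)
    · rw [hV1]
      exact ⟨isOpen_pt γ, isCompact_singleton⟩
    · by_cases h : S δ ∧ δ ≤ β
      · rw [hV2 δ h]
        have h1 := (hg1 δ h.1 (hSα δ h.1) h.2).2
        exact ⟨isOpen_W hL ⟨δ, h.1⟩ h1, isCompact_W hL ⟨δ, h.1⟩ h1⟩
      · rw [hV3 δ h]
        exact ⟨isOpen_empty, isCompact_empty⟩
  let F : X S lad → (Z ⊕ Z → ℝ) := fun x i =>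
    Set.indicator ((fun p : Psi S lad => (p : X S lad)) '' V i) (fun _ => (1 : ℝ)) x
  have hFc : Continuous F := continuous_pi fun i => continuous_ind hL (hV i).1 (hV i).2
  have hF1 : ∀ (p : Psi S lad) i, F (p : X S lad) i = if p ∈ V i then 1 else 0 := by
    intro p i
    by_cases h : p ∈ V i
    · rw [if_pos h]
      exact indicator_of_mem (mem_image_of_mem _ h) _
    · rw [if_neg h]
      refine indicator_of_notMem ?_ _
      rintro ⟨q, hq, h'⟩
      rw [OnePoint.coe_injective h'] at hq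
      exact h hq
  have hF2 : ∀ i, F OnePoint.infty i = 0 := by
    intro i
    refine indicator_of_notMem ?_ _
    rintro ⟨q, -, h'⟩
    exact OnePoint.coe_ne_infty _ h'
  have hF3 : ∀ x i, |F x i| ≤ 1 := by
    intro x i
    by_cases h : x ∈ (fun p : Psi S lad => (p : X S lad)) '' V i
    · have : F x i = 1 := indicator_of_mem h _
      rw [this, abs_one]
    · have : F x i = 0 := indicator_of_notMem h _
      rw [this, abs_zero]
      exact zero_le_one
  have hmem1 : ∀ γ γ', (pt γ : Psi S lad) ∈ V (Sum.inl γ') ↔ γ = γ' := fun γ γ' =>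
    ⟨fun h => pt_inj (mem_singleton_iff.1 h), fun h => by rw [h]; exact mem_singleton _⟩
  have hmem2 : ∀ (δ : {δ // S δ}) γ', (lp δ : Psi S lad) ∉ V (Sum.inl γ') := fun δ γ' h =>
    pt_ne_lp _ _ (mem_singleton_iff.1 h).symm
  have hmem3 : ∀ (δ : {δ // S δ}) δ', (lp δ : Psi S lad) ∈ V (Sum.inr δ') → δ.1 = δ' := by
    intro δ δ' h
    by_cases h' : S δ' ∧ δ' ≤ β
    · rw [hV2 δ' h'] at h
      rcases h with h | ⟨n, -, h⟩
      · rw [lp_inj h]
      · exact absurd h.symm (pt_ne_lp _ _)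
    · rw [hV3 δ' h'] at h
      exact absurd h (notMem_empty _)
  have hmem4 : ∀ (δ : {δ // S δ}), δ.1 ≤ β → (lp δ : Psi S lad) ∈ V (Sum.inr δ.1) := by
    intro δ h
    rw [hV2 δ.1 ⟨δ.2, h⟩]
    exact Or.inl rfl
  have hfin : ∀ x : X S lad, (Function.support (F x)).Finite := by
    intro x
    induction x using OnePoint.rec with
    | infty =>
      convert Set.finite_empty
      rw [eq_empty_iff_forall_notMem]
      intro i hi
      exact hi (hF2 i)
    | coe p =>
      rcases psi_cases p with ⟨γ, rfl⟩ | ⟨δ, rfl⟩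
      · -- at most one `δ`
        have h1 : {δ' : Z | (pt γ : Psi S lad) ∈ V (Sum.inr δ')}.Subsingleton := by
          have key : ∀ δ δ', δ < δ' → (pt γ : Psi S lad) ∈ V (Sum.inr δ) →
              (pt γ : Psi S lad) ∈ V (Sum.inr δ') → False := by
            intro δ δ' hlt h1 h2
            by_cases h3 : S δ ∧ δ ≤ β
            · by_cases h4 : S δ' ∧ δ' ≤ β
              · rw [hV2 δ h3] at h1
                rw [hV2 δ' h4] at h2
                rcases h1 with h1 | ⟨m, hm, h1⟩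
                · exact absurd h1 (pt_ne_lp _ _)
                · rcases h2 with h2 | ⟨k, hk, h2⟩
                  · exact absurd h2 (pt_ne_lp _ _)
                  · exact hg2 δ δ' m k h3.1 h4.1 (hSα δ h3.1) hlt h4.2
                      ((pt_inj h1).symm.trans (pt_inj h2)) hm hk
              · rw [hV3 δ' h4] at h2
                exact notMem_empty _ h2
            · rw [hV3 δ h3] at h1
              exact notMem_empty _ h1
          intro δ h1 δ' h2
          rcases lt_trichotomy δ δ' with h | h | h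
          · exact (key δ δ' h h1 h2).elim
          · exact h
          · exact (key δ' δ h h2 h1).elim
        refine ((h1.finite.image Sum.inr).union (Set.finite_singleton (Sum.inl γ))).subset ?_
        intro i hi
        have h2 : (pt γ : Psi S lad) ∈ V i := by
          by_contra hcon
          exact hi ((hF1 _ i).trans (if_neg hcon))
        rcases i with γ' | δ'
        · right
          rw [(hmem1 γ γ').1 h2]
          exact mem_singleton _
        · exact Or.inl ⟨δ', h2, rfl⟩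
      · refine (Set.finite_singleton (Sum.inr δ.1 : Z ⊕ Z)).subset ?_
        intro i hi
        have h2 : (lp δ : Psi S lad) ∈ V i := by
          by_contra hcon
          exact hi ((hF1 _ i).trans (if_neg hcon))
        rcases i with γ' | δ'
        · exact absurd h2 (hmem2 δ γ')
        · rw [hmem3 δ δ' h2]
          exact mem_singleton _
  -- injectivity
  have hpt : ∀ (γ : Z) (y : X S lad), F ((pt γ : Psi S lad) : X S lad) = F y →
      y = ((pt γ : Psi S lad) : X S lad) := by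
    intro γ y h
    have h1 : F ((pt γ : Psi S lad) : X S lad) (Sum.inl γ) = 1 :=
      (hF1 _ _).trans (if_pos ((hmem1 γ γ).2 rfl))
    rw [h] at h1
    induction y using OnePoint.rec with
    | infty => rw [hF2] at h1; exact absurd h1 zero_ne_one
    | coe q =>
      rw [hF1] at h1
      by_cases h2 : q ∈ V (Sum.inl γ)
      · exact congrArg _ (mem_singleton_iff.1 h2)
      · rw [if_neg h2] at h1
        exact absurd h1 zero_ne_one
  have hlp : ∀ (δ : {δ // S δ}) (y : X S lad), δ.1 ≤ β →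
      (∀ γ, y ≠ ((pt γ : Psi S lad) : X S lad)) →
      F ((lp δ : Psi S lad) : X S lad) = F y → y = ((lp δ : Psi S lad) : X S lad) := by
    intro δ y hδ hy h
    have h1 : F ((lp δ : Psi S lad) : X S lad) (Sum.inr δ.1) = 1 :=
      (hF1 _ _).trans (if_pos (hmem4 δ hδ))
    rw [h] at h1
    induction y using OnePoint.rec with
    | infty => rw [hF2] at h1; exact absurd h1 zero_ne_one
    | coe q =>
      rw [hF1] at h1
      by_cases h2 : q ∈ V (Sum.inr δ.1)
      · rcases psi_cases q with ⟨γ', rfl⟩ | ⟨δ', rfl⟩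
        · exact absurd rfl (hy γ')
        · rw [Subtype.ext (hmem3 δ' δ.1 h2)]
      · rw [if_neg h2] at h1
        exact absurd h1 zero_ne_one
  have hinj : ∀ x ∈ Xb S lad β, ∀ y ∈ Xb S lad β, F x = F y → x = y := by
    intro x hx y hy h
    by_cases h1 : ∃ γ, x = ((pt γ : Psi S lad) : X S lad)
    · obtain ⟨γ, rfl⟩ := h1
      exact (hpt γ y h).symm
    by_cases h2 : ∃ γ, y = ((pt γ : Psi S lad) : X S lad)
    · obtain ⟨γ, rfl⟩ := h2
      exact hpt γ x h.symm
    push Not at h1 h2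
    by_cases h3 : ∃ δ, x = ((lp δ : Psi S lad) : X S lad)
    · obtain ⟨δ, rfl⟩ := h3
      exact (hlp δ y (hx.2 δ rfl) h2 h).symm
    by_cases h4 : ∃ δ, y = ((lp δ : Psi S lad) : X S lad)
    · obtain ⟨δ, rfl⟩ := h4
      exact hlp δ x (hy.2 δ rfl) h1 h.symm
    push Not at h3 h4
    have h5 : ∀ z : X S lad, (∀ γ, z ≠ ((pt γ : Psi S lad) : X S lad)) →
        (∀ δ, z ≠ ((lp δ : Psi S lad) : X S lad)) → z = OnePoint.infty := by
      intro z h1 h3
      induction z using OnePoint.rec with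
      | infty => rfl
      | coe p =>
        rcases psi_cases p with ⟨γ, rfl⟩ | ⟨δ, rfl⟩
        · exact absurd rfl (h1 γ)
        · exact absurd rfl (h3 δ)
    rw [h5 x h1 h3, h5 y h2 h4]
  refine ⟨Z ⊕ Z, fun x => F x.1, hFc.comp continuous_subtype_val, ?_, ?_, 1, fun x i => hF3 _ _⟩
  · intro x y h
    exact Subtype.ext (hinj x.1 (hA' x.2) y.1 (hA' y.2) h)
  · intro x
    refine tendsto_nhds_of_eventually_eq ?_
    rw [eventually_cofinite]
    exact hfin x.1

end

/-- **The counterexample.** -/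
theorem exists_space {κ : Cardinal.{0}} (hκ : ℵ₀ ≤ κ) {S : (Order.succ κ).ord.ToType → Prop}
    (hS : NonRef S) : ∃ (X : Type) (_ : TopologicalSpace X) (_ : CompactSpace X) (_ : T2Space X),
      (∀ A : Set X, #A ≤ κ → EberleinLike (closure A)) ∧ ¬ CorsonLike X := by
  classical
  have hreg : (Order.succ κ).IsRegular := Cardinal.isRegular_succ hκ
  have hno := exists_gt hreg
  have hbd : ∀ (J : Type) (f : J → (Order.succ κ).ord.ToType), #J ≤ κ → ∃ b, ∀ j, f j ≤ b := by
    intro J f hJ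
    obtain ⟨b, hb⟩ := exists_bound hreg (Set.range f)
      (Cardinal.mk_range_le.trans_lt (hJ.trans_lt (Order.lt_succ κ)))
    exact ⟨b, fun n => (hb _ ⟨n, rfl⟩).le⟩
  have hI : ∀ z : (Order.succ κ).ord.ToType, #(Iio z) ≤ κ := fun z =>
    Order.lt_succ_iff.1 (card_Iio_lt z)
  obtain ⟨lad, hL⟩ := exists_lad hS.2.1
  have := t2 hL
  have := wlc hL
  refine ⟨X S lad, inferInstance, inferInstance, inferInstance, fun A hA => ?_,
    not_corson hκ hno hbd hI hL hS.1⟩
  have h1 : ∀ x : A, ∃ z, x.1 ∈ Xb S lad z := by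
    intro x
    by_cases h1 : ∃ γ, x.1 = ((pt γ : Psi S lad) : X S lad)
    · obtain ⟨γ, h⟩ := h1
      refine ⟨γ, fun γ' h' => ?_, fun δ h' => ?_⟩
      · rw [pt_inj (OnePoint.coe_injective (h.symm.trans h'))]
      · exact absurd (OnePoint.coe_injective (h.symm.trans h')) (pt_ne_lp _ _)
    by_cases h2 : ∃ δ, x.1 = ((lp δ : Psi S lad) : X S lad)
    · obtain ⟨δ, h⟩ := h2
      refine ⟨δ.1, fun γ h' => ?_, fun δ' h' => ?_⟩
      · exact absurd (OnePoint.coe_injective (h.symm.trans h')).symm (pt_ne_lp _ _)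
      · rw [lp_inj (OnePoint.coe_injective (h.symm.trans h'))]
    · push Not at h1 h2
      obtain ⟨b, -⟩ := hbd PEmpty PEmpty.elim (by simp)
      exact ⟨b, fun γ h => absurd h (h1 γ), fun δ h => absurd h (h2 δ)⟩
  choose z hz using h1
  obtain ⟨b, hb⟩ := hbd A z hA
  refine eberlein_closure hL (exists_cut hL hS.2.1 hS.2.2) b A fun x hx => ?_
  exact ⟨fun γ h => ((hz ⟨x, hx⟩).1 γ h).trans (hb ⟨x, hx⟩),
    fun δ h => ((hz ⟨x, hx⟩).2 δ h).trans (hb ⟨x, hx⟩)⟩

end Pool.Agent.TH577.CO
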