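import Pool.Agent.TH577.CO.Free
set_option autoImplicit false

/-!
# The ladder space and its one-point compactification
-/

namespace Pool.Agent.TH577.CO

open Cardinal Set Filter Topology Pool.Agent.W869.CC

section

variable {Z : Type} [LinearOrder Z]

/-- The points of the ladder space: the points of `Z`, which are isolated, and the points of `S`,
to which the ladders converge. -/
def Psi (S : Z → Prop) (_lad : Z → ℕ → Z) : Type := Z ⊕ {δ // S δ}

variable {S : Z → Prop} {lad : Z → ℕ → Z}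

instance : TopologicalSpace (Psi S lad) where
  IsOpen U := ∀ δ : {δ // S δ}, (Sum.inr δ : Psi S lad) ∈ U →
    {n | (Sum.inl (lad δ n) : Psi S lad) ∉ U}.Finite
  isOpen_univ := fun _ _ => Set.finite_empty.subset fun _ hn => (hn (Set.mem_univ _)).elim
  isOpen_inter U V hU hV := fun δ h => by
    refine ((hU δ h.1).union (hV δ h.2)).subset fun n hn => ?_
    by_cases h1 : (Sum.inl (lad δ n) : Psi S lad) ∈ U
    · exact Or.inr fun h2 => hn ⟨h1, h2⟩
    · exact Or.inl h1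
  isOpen_sUnion T hT := fun δ h => by
    obtain ⟨U, hU, hδ⟩ := h
    exact (hT U hU δ hδ).subset fun n hn h => hn ⟨U, hU, h⟩

theorem isOpen_psi {U : Set (Psi S lad)} : IsOpen U ↔ ∀ δ : {δ // S δ},
    (Sum.inr δ : Psi S lad) ∈ U → {n | (Sum.inl (lad δ n) : Psi S lad) ∉ U}.Finite := Iff.rfl

/-- the isolated points -/
def pt (γ : Z) : Psi S lad := Sum.inl γ

/-- the limit points -/
def lp (δ : {δ // S δ}) : Psi S lad := Sum.inr δ

theorem pt_ne_lp (γ : Z) (δ : {δ // S δ}) : (pt γ : Psi S lad) ≠ lp δ := fun h => by cases h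

theorem pt_inj {γ γ' : Z} (h : (pt γ : Psi S lad) = pt γ') : γ = γ' := Sum.inl_injective h

theorem lp_inj {δ δ' : {δ // S δ}} (h : (lp δ : Psi S lad) = lp δ') : δ = δ' :=
  Sum.inr_injective h

theorem psi_cases (x : Psi S lad) : (∃ γ, x = pt γ) ∨ ∃ δ, x = lp δ := by
  rcases x with γ | δ
  · exact Or.inl ⟨γ, rfl⟩
  · exact Or.inr ⟨δ, rfl⟩

theorem isOpen_iff' {U : Set (Psi S lad)} : IsOpen U ↔ ∀ δ : {δ // S δ},
    lp δ ∈ U → {n | (pt (lad δ n) : Psi S lad) ∉ U}.Finite := Iff.rfl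

theorem isOpen_pt (γ : Z) : IsOpen ({pt γ} : Set (Psi S lad)) := by
  rw [isOpen_iff']
  intro δ h
  exact absurd (mem_singleton_iff.1 h).symm (pt_ne_lp γ δ)

theorem finite_lad_eq (hL : IsLad S lad) (δ : {δ // S δ}) (γ : Z) : {n | lad δ n = γ}.Finite := by
  refine Set.Subsingleton.finite fun m hm n hn => ?_
  have h1 : lad δ m = γ := hm
  have h2 : lad δ n = γ := hn
  exact (hL.mono δ δ.2).injective (h1.trans h2.symm)

theorem finite_lad_le (hL : IsLad S lad) (δ : {δ // S δ}) {x : Z} (hx : x < δ) :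
    {n | ¬ x < lad δ n}.Finite := by
  obtain ⟨k, hk⟩ := hL.cof δ δ.2 x hx
  refine (Set.finite_Iio k).subset fun n hn => ?_
  by_contra hcon
  exact hn (hk.trans_le ((hL.mono δ δ.2).monotone (not_lt.1 hcon)))

theorem isClosed_pt (hL : IsLad S lad) (γ : Z) : IsClosed ({pt γ} : Set (Psi S lad)) := by
  rw [← isOpen_compl_iff, isOpen_iff']
  intro δ _
  refine (finite_lad_eq hL δ γ).subset fun n hn => ?_
  by_contra hcon
  exact hn fun h => hcon (pt_inj (mem_singleton_iff.1 h))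

/-- a neighbourhood of a limit point -/
def W (δ : {δ // S δ}) (x : Z) : Set (Psi S lad) :=
  {p | p = lp δ ∨ ∃ n, x < lad δ n ∧ p = pt (lad δ n)}

theorem isOpen_W (hL : IsLad S lad) (δ : {δ // S δ}) {x : Z} (hx : x < δ) :
    IsOpen (W δ x : Set (Psi S lad)) := by
  rw [isOpen_iff']
  rintro δ' (h | ⟨n, -, h⟩)
  · obtain rfl := lp_inj h
    refine (finite_lad_le hL δ' hx).subset fun n hn h' => hn (Or.inr ⟨n, h', rfl⟩)
  · exact absurd h.symm (pt_ne_lp _ _)

theorem tendsto_lad (δ : {δ // S δ}) :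
    Tendsto (fun n => (pt (lad δ n) : Psi S lad)) atTop (𝓝 (lp δ)) := by
  rw [tendsto_atTop_nhds]
  intro U hU hUo
  have h := isOpen_iff'.1 hUo δ hU
  obtain ⟨N, hN⟩ := h.bddAbove
  refine ⟨N + 1, fun n hn => ?_⟩
  by_contra hcon
  have := hN hcon
  omega

theorem isCompact_W (hL : IsLad S lad) (δ : {δ // S δ}) {x : Z} (hx : x < δ) :
    IsCompact (W δ x : Set (Psi S lad)) := by
  classical
  obtain ⟨k, hk⟩ := hL.cof δ δ.2 x hx
  have hex : ∃ k, x < lad δ k := ⟨k, hk⟩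
  have h1 : Tendsto (fun n => (pt (lad δ (n + Nat.find hex)) : Psi S lad)) atTop (𝓝 (lp δ)) :=
    (tendsto_lad δ).comp (tendsto_add_atTop_nat _)
  have h2 := h1.isCompact_insert_range
  convert h2 using 1
  ext p
  constructor
  · rintro (h | ⟨n, h3, h4⟩)
    · exact Or.inl h
    · refine Or.inr ⟨n - Nat.find hex, ?_⟩
      have h5 : Nat.find hex ≤ n := Nat.find_min' hex h3
      beta_reduce
      rw [h4, Nat.sub_add_cancel h5]
  · rintro (h | ⟨n, rfl⟩)
    · exact Or.inl h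
    · refine Or.inr ⟨n + Nat.find hex, ?_, rfl⟩
      exact (Nat.find_spec hex).trans_le ((hL.mono δ δ.2).monotone (Nat.le_add_left _ _))

theorem t2 (hL : IsLad S lad) : T2Space (Psi S lad) := by
  refine ⟨fun p q hpq => ?_⟩
  have key : ∀ (γ : Z) (q : Psi S lad), pt γ ≠ q → ∃ u v : Set (Psi S lad),
      IsOpen u ∧ IsOpen v ∧ pt γ ∈ u ∧ q ∈ v ∧ Disjoint u v := fun γ q h =>
    ⟨{pt γ}, {pt γ}ᶜ, isOpen_pt γ, (isClosed_pt hL γ).isOpen_compl, rfl, fun h' => h h'.symm,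
      disjoint_compl_right⟩
  have key2 : ∀ δ δ' : {δ // S δ}, δ.1 < δ'.1 → ∃ u v : Set (Psi S lad),
      IsOpen u ∧ IsOpen v ∧ lp δ ∈ u ∧ lp δ' ∈ v ∧ Disjoint u v := by
    intro δ δ' h
    refine ⟨W δ (lad δ 0), W δ' δ, isOpen_W hL δ (hL.lt δ δ.2 0), isOpen_W hL δ' h, Or.inl rfl,
      Or.inl rfl, ?_⟩
    rw [Set.disjoint_left]
    rintro p (h1 | ⟨n, -, h1⟩) (h2 | ⟨n', h3, h2⟩)
    · have := lp_inj (h1.symm.trans h2)
      rw [this] at h
      exact lt_irrefl _ h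
    · exact pt_ne_lp _ _ (h2.symm.trans h1)
    · exact pt_ne_lp _ _ (h1.symm.trans h2)
    · have h4 := pt_inj (h1.symm.trans h2)
      rw [← h4] at h3
      exact absurd (hL.lt δ δ.2 n) (not_lt.2 h3.le)
  rcases psi_cases p with ⟨γ, rfl⟩ | ⟨δ, rfl⟩
  · exact key γ q hpq
  · rcases psi_cases q with ⟨γ', rfl⟩ | ⟨δ', rfl⟩
    · obtain ⟨u, v, h1, h2, h3, h4, h5⟩ := key γ' (lp δ) hpq.symm
      exact ⟨v, u, h2, h1, h4, h3, h5.symm⟩
    · rcases lt_trichotomy δ.1 δ'.1 with h | h | h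
      · exact key2 δ δ' h
      · exact absurd (congrArg lp (Subtype.ext h)) hpq
      · obtain ⟨u, v, h1, h2, h3, h4, h5⟩ := key2 δ' δ h
        exact ⟨v, u, h2, h1, h4, h3, h5.symm⟩

theorem wlc (hL : IsLad S lad) : WeaklyLocallyCompactSpace (Psi S lad) := by
  refine ⟨fun p => ?_⟩
  rcases psi_cases p with ⟨γ, rfl⟩ | ⟨δ, rfl⟩
  · exact ⟨{pt γ}, isCompact_singleton, (isOpen_pt γ).mem_nhds rfl⟩
  · exact ⟨W δ (lad δ 0), isCompact_W hL δ (hL.lt δ δ.2 0),
      (isOpen_W hL δ (hL.lt δ δ.2 0)).mem_nhds (Or.inl rfl)⟩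

/-- a compact set contains only finitely many limit points -/
theorem finite_lp {K : Set (Psi S lad)} (hK : IsCompact K) : {δ | lp δ ∈ K}.Finite := by
  classical
  rcases isEmpty_or_nonempty {δ // S δ} with he | hne
  · exact Set.toFinite _
  obtain ⟨t, ht⟩ := hK.elim_finite_subcover
    (fun δ : {δ // S δ} => ({p | p = lp δ ∨ ∃ γ, p = pt γ} : Set (Psi S lad))) (by
      intro δ
      rw [isOpen_iff']
      intro δ' _
      convert Set.finite_empty
      rw [eq_empty_iff_forall_notMem]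
      intro n hn
      exact hn (Or.inr ⟨_, rfl⟩)) (by
      intro p _
      rcases psi_cases p with ⟨γ, rfl⟩ | ⟨δ, rfl⟩
      · exact mem_iUnion.2 ⟨Classical.choice hne, Or.inr ⟨γ, rfl⟩⟩
      · exact mem_iUnion.2 ⟨δ, Or.inl rfl⟩)
  refine t.finite_toSet.subset fun δ hδ => ?_
  obtain ⟨i, hi⟩ := mem_iUnion.1 (ht hδ)
  obtain ⟨hi1, hi2⟩ := mem_iUnion.1 hi
  rcases hi2 with h | ⟨γ, h⟩
  · rw [lp_inj h]
    exact hi1
  · exact absurd h.symm (pt_ne_lp _ _)

/-- the one-point compactification -/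
abbrev X (S : Z → Prop) (lad : Z → ℕ → Z) : Type := OnePoint (Psi S lad)

theorem continuous_ind {V : Set (Psi S lad)} (hL : IsLad S lad) (h1 : IsOpen V)
    (h2 : IsCompact V) :
    Continuous (Set.indicator ((fun p : Psi S lad => (p : X S lad)) '' V) fun _ => (1 : ℝ)) := by
  have := t2 hL
  have h3 : IsClopen ((fun p : Psi S lad => (p : X S lad)) '' V) := by
    constructor
    · have h5 := OnePoint.isOpen_compl_image_coe.2 ⟨h2.isClosed, h2⟩
      exact ⟨h5⟩
    · exact OnePoint.isOpen_image_coe.2 h1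
  refine continuous_indicator ?_ continuousOn_const
  rw [h3.frontier_eq]
  intro a ha
  exact absurd ha (notMem_empty a)

end

end Pool.Agent.TH577.CO
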